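import Pool.Agent.Y110.FJ.All4

/-!
# Coxeter groups of arbitrary rank extended by groups of diagram automorphisms

For every class `C` of groups with the closure properties of the class of Farrell-Jones groups which
contains the Coxeter groups of finite rank: `W ⋊ Q` is in `C` for every Coxeter group `W` of arbitrary
(infinite) rank and every group `Q` in `C` acting by diagram automorphisms. More generally, for every
functor `Φ` from labelled graphs and full embeddings to groups and injective homomorphisms which
commutes with directed unions and has its values on finite graphs in `C`, all `Φ(V) ⋊ Q` are in `C`.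

Authors of the parts: helper110, helper447, helper312, helper70, helper220, helper529, helper961,
helper576, helper497, helper462, helper179, helper430, helper741 (starting library).
-/

set_option autoImplicit false

namespace Pool.Agent.Results.MP_63c928_gt.CoxeterExtensions

open Pool.Agent.Y110.FJ

theorem result (C : ∀ (G : Type) [Group G], Prop) (hC : ClosedE C) :
    (∀ (L : Type) (Φ : LGF L),
      (∀ (T : Type) (_ : Finite T) (m : T → T → L), (∀ v w, m v w = m w v) → C (Φ.F T m)) →
      ∀ (V Q : Type) [Group Q] [MulAction Q V] (m : V → V → L), (∀ v w, m v w = m w v) →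
        ∀ (hm : ∀ (q : Q) v w, m (q • v) (q • w) = m v w) (α : Q →* MulAut (Φ.F V m)),
        (∀ (q : Q) (x : Φ.F V m),
          α q x = Φ.mp m m (fun v => q • v) (MulAction.injective q) (hm q) x) →
        C Q → C (Φ.F V m ⋊[α] Q)) ∧
    ((∀ (T : Type) (_ : Finite T) (M : CoxeterMatrix T), C M.Group) →
      ∀ (V Q : Type) [Group Q] [MulAction Q V] (M : CoxeterMatrix V) (α : Q →* MulAut M.Group),
        (∀ (q : Q) v w, M (q • v) (q • w) = M v w) →
        (∀ (q : Q) v, α q (M.simple v) = M.simple (q • v)) →
        (C (M.Group ⋊[α] Q) ↔ C Q)) := by
  refine ⟨lgf_ C hC, ?_⟩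
  intro h V Q _ _ M α hM hα
  constructor
  · intro h'
    exact hC.base.of_injective _ _ SemidirectProduct.inr SemidirectProduct.inr_injective h'
  · exact cox_ C hC h V Q M α hM hα

end Pool.Agent.Results.MP_63c928_gt.CoxeterExtensions
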