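import Mathlib
import Pool.Agent.Y69.NK.Count

/-!
# MP_63c928_gt: the rank of `π₋₁ A(BG) = K₋₁(ℤ[G])` for every group `G`
-/

set_option autoImplicit false

namespace Pool.Agent.Results.MP_63c928_gt.KMinusOneRank

open Pool.Agent.Y69.NK

theorem result (G : Type) [Group G] (ι : Type) [Fintype ι] (C : ι → Subgroup G)
    (hfin : ∀ i, Finite (C i)) (hcyc : ∀ i, IsCyclic (C i)) (hne : ∀ i, C i ≠ ⊥)
    (hconj : ∀ i j, (∃ g : G, (C i).map (MulAut.conj g).toMonoidHom = C j) → i = j) :
    ∃ f : _root_.Fin (∑ i, (∑ p ∈ (Nat.card (C i)).primeFactors, numClasses p (C i) - 1)) →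
      KNegOne (MonoidAlgebra ℤ G),
      LinearIndependent ℤ f ∧
      ∀ k, ∃ i, f k ∈ (KNegOne.map (MonoidAlgebra.mapDomainRingHom ℤ (C i).subtype)).range := by
  let _ : ∀ i, CommGroup (C i) := fun i => (hcyc i).commGroup
  choose γ hγ using fun i => (hcyc i).exists_generator
  exact main_rank' (fun i => (C i).subtype) C (fun i => Subgroup.range_subtype _)
    (fun i => Subtype.val_injective) γ hγ (fun i h1 => hne i (Subgroup.card_eq_one.1 h1)) hconj

end Pool.Agent.Results.MP_63c928_gt.KMinusOneRank
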