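import Pool.Agent.Y84.PK.X

/-!
# Odd cyclic cocycles on `K₁(K[G])` and finite quotients of centralisers

For a group `G` the group `π₁ A(BG)` is `K₁(ℤ[G])`. If `G` satisfies the Farrell-Jones conjecture for
`A`-theory, then `K₁(ℤ[G])` comes, up to torsion, from the `K`-theory of the virtually cyclic subgroups
of `G`, and the Chern character of `K₁(ℤ[G])` in the cyclic homology of `ℚ[G]` vanishes at the
conjugacy classes of the elements of infinite order: every cyclic cocycle of degree `2 n + 1 ≥ 1`
supported at these classes, that is every cycle `(Ω, δ, T)` of dimension `2 n + 1` in the sense of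
Connes, vanishes on all invertible matrices `u`: `T (v δu (δv δu) ^ n) = 0`, `v = u⁻¹`. We prove this,
for the invertible matrices over `K[G]`, `K` any field of characteristic zero, for the cycles with
values in a finitely generated subgroup of a vector space, if the centralisers of the elements of
infinite order in the finitely generated subgroups of `G` are residually finite (for example if `G` is
locally residually finite), or if these elements are not almost divisible; `G` may have torsion. More
generally we prove it for every class such that the centraliser has enough finite quotients. The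
theorem is stated in the fibered form: if `f : G → Γ` is a homomorphism, then the conditions are only
needed for `Γ`, for the cycles over `K[G]` whose values vanish if the image of the product in `Γ` has
finite order; also in this form it is predicted by the (fibered) Farrell-Jones conjecture for `Γ`.

Proof. Let `pr : K[words] → K[G]` be the map from the monoid algebra of the words in the elements of
`G`, and `J` its kernel. The cycle has a potential, a function `Φ` on the words which vanishes on
`[K[words], J ^ (n + 1)]`, and `T (v δu (δv δu) ^ n) = Φ((1 - u v) ^ (n + 1)) - Φ((1 - v u) ^ (n + 1))`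
for the lifts of `u` and `v` to matrices over `K[words]`. Let `g ∈ G` and let `π` be a homomorphism
from the centraliser of `g` to a finite group `Q` such that the order of `c = π(g)` is divisible by
`p` and by a high power of `p`. The coefficients and the values are specialised to an algebraic
closure of `ℚ_p`; the skew monoid ring of the words over the ring of functions on `G` is divided by
the radical of the bilinear form of `Φ_g` on the power of the ideal, and the cocycle `G × G → Q`
defined by `π` decomposes the matrices into the coefficients of matrices over `U[Q]`. Replace `c` by a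
variable; on a `p`-adic disc which contains `ζ` and `ζ ω`, `ζ` a root of unity and `ω` a root of unity
of order `p`, we have a family of nearly invertible matrices over `U`, and the values at `ζ` and `ζ ω`
agree. Hence the part of the value which belongs to the class of `g` vanishes. If `g` is not conjugate
to the `g ^ (p ^ j)`, for infinitely many primes `p`, the part is, modulo `p`, a value of `Φ_g` on
`p ^ κ`-th powers, and vanishes modulo these `p`.
-/

set_option autoImplicit false

namespace Pool.Agent.Results.MP_63c928_gt.OddCyclesFiniteQuotients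

universe u1 u2 u3 u4 u5

/-- `(Ω, δ, T)` is a cycle of dimension `N` with values in the vector space `M`: `Ω` is a graded
algebra with homogeneous components `𝒜 i`, `δ` is a differential of degree one, and `T` is a
closed graded trace which vanishes outside degree `N`. -/
structure IsCycle {K : Type u1} [Field K] {Ω : Type u4} [Ring Ω] [Algebra K Ω] {M : Type u5}
    [AddCommGroup M] [Module K M] (N : ℕ) (𝒜 : ℕ → Submodule K Ω) [GradedAlgebra 𝒜]
    (δ : Ω →ₗ[K] Ω) (T : Ω →ₗ[K] M) : Prop where
  deg : ∀ i, ∀ x ∈ 𝒜 i, δ x ∈ 𝒜 (i + 1)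
  sq : ∀ x, δ (δ x) = 0
  leibniz : ∀ i, ∀ x ∈ 𝒜 i, ∀ y, δ (x * y) = δ x * y + (-1) ^ i * (x * δ y)
  closed : ∀ x, T (δ x) = 0
  trace : ∀ i j, ∀ x ∈ 𝒜 i, ∀ y ∈ 𝒜 j, T (x * y) = T ((-1) ^ (i * j) * (y * x))
  dim : ∀ i, i ≠ N → ∀ x ∈ 𝒜 i, T x = 0

/-- For every `m ≠ 0` the centraliser of `g` has a homomorphism `π` to a finite group with
`π(g) ^ m ≠ 1`. -/
def FiniteQuotients {H : Type u2} [Group H] (g : H) : Prop :=
  ∀ m : ℕ, m ≠ 0 → ∃ (Q : Type u2) (_ : Group Q) (_ : Finite Q)
    (π : Subgroup.centralizer ({g} : Set H) →* Q),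
      π ⟨g, Subgroup.mem_centralizer_singleton_iff.2 rfl⟩ ^ m ≠ 1

/-- residually finite -/
def RF (G : Type u2) [Group G] : Prop :=
  ∀ g : G, g ≠ 1 → ∃ N : Subgroup G, N.Normal ∧ N.FiniteIndex ∧ g ∉ N

/-- The value of the cycle on the group elements `a`, `b₁`, …, `b_r`. -/
noncomputable def value {K : Type u1} [Field K] {G : Type u2} [Group G] {Ω : Type u4} [Ring Ω]
    [Algebra K Ω] {M : Type u5} [AddCommGroup M] [Module K M] (δ : Ω →ₗ[K] Ω) (T : Ω →ₗ[K] M)
    (ρ : MonoidAlgebra K G →ₐ[K] Ω) (a : G) (l : List G) : M :=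
  T (ρ (MonoidAlgebra.single a 1) * (l.map fun b => δ (ρ (MonoidAlgebra.single b 1))).prod)

/-- There are infinitely many primes `p` such that `g` is not conjugate to any `g ^ (p ^ j)`,
`j ≥ 1`. -/
def NotDivisible {H : Type u2} [Group H] (g : H) : Prop :=
  {p : ℕ | p.Prime ∧ ∀ j, 1 ≤ j → ¬ IsConj g (g ^ p ^ j)}.Infinite

/-- Every element `γ` of infinite order of a finitely generated subgroup `H` of `Γ` is not divisible
in the sense of `NotDivisible`, or its centraliser in `H` has enough finite quotients or is residually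
finite. -/
def Sep (Γ : Type u2) [Group Γ] : Prop :=
  ∀ H : Subgroup Γ, H.FG → ∀ γ : H, ¬ IsOfFinOrder γ →
    NotDivisible γ ∨ FiniteQuotients γ ∨ RF (Subgroup.centralizer ({γ} : Set H))

/-- The values of the cycle, of dimension `N`, on the elements of `H` with product conjugate to `g` in
`H` lie in `V`. -/
def ValuesIn {K : Type u1} [Field K] {G : Type u2} [Group G] {Ω : Type u4} [Ring Ω]
    [Algebra K Ω] {M : Type u5} [AddCommGroup M] [Module K M] (δ : Ω →ₗ[K] Ω) (T : Ω →ₗ[K] M)
    (ρ : MonoidAlgebra K G →ₐ[K] Ω) (N : ℕ) {H : Subgroup G} (g : H) (V : AddSubgroup M) : Prop :=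
  ∀ (a : H) (l : List H), l.length = N → IsConj g (a * l.prod) →
    value δ T ρ a (l.map Subtype.val) ∈ V

/-- The value `T (v δu (δv δu) ^ n)` of the cycle on the matrix `u` with inverse `v`. -/
noncomputable def onMat {K : Type u1} [Field K] {G : Type u2} [Group G] {d : Type u3} [Fintype d]
    [DecidableEq d] {Ω : Type u4} [Ring Ω] [Algebra K Ω] {M : Type u5} [AddCommGroup M] [Module K M]
    (δ : Ω →ₗ[K] Ω) (T : Ω →ₗ[K] M) (ρ : MonoidAlgebra K G →ₐ[K] Ω) (n : ℕ)
    (u v : Matrix d d (MonoidAlgebra K G)) : M :=
  T (v.map ρ * (u.map ρ).map δ * ((v.map ρ).map δ * (u.map ρ).map δ) ^ n).trace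

/-- `K` is a field of characteristic zero, `G` a group, `u` an invertible matrix over `K[G]` with
inverse `v`, `(Ω, δ, T)` a cycle over `K[G]` of dimension `2 n + 1 ≥ 1` with values in the vector
space `M`.
(1) Let `H` be a subgroup which contains the supports of the entries of `u` and `v`. For every `g ∈ H`
suppose that the values with product conjugate to `g` in `H` vanish, or that `g` is not divisible and
these values lie in the module generated by a finite set `F` over the subring generated by a finite
set `s`, or that the centraliser of `g` in `H` has enough finite quotients and these values lie in a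
finitely generated subgroup of `M`. Then `T (v δu (δv δu) ^ n) = 0`.
(2) Let `f : G → Γ` be a homomorphism to a group which satisfies `Sep`. `T (v δu (δv δu) ^ n) = 0` if
the values such that the image of the product in `Γ` has finite order vanish, and all values of the
cycle lie in a finitely generated subgroup of `M`. -/
theorem result (K : Type u1) [Field K] [CharZero K] (G : Type u2) [Group G] (d : Type u3)
    [Fintype d] [DecidableEq d] (u v : Matrix d d (MonoidAlgebra K G)) (huv : u * v = 1)
    (hvu : v * u = 1)
    (Ω : Type u4) [Ring Ω] [Algebra K Ω] (𝒜 : ℕ → Submodule K Ω) [GradedAlgebra 𝒜]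
    (M : Type u5) [AddCommGroup M] [Module K M] (δ : Ω →ₗ[K] Ω) (T : Ω →ₗ[K] M)
    (n : ℕ) (hT : IsCycle (2 * n + 1) 𝒜 δ T)
    (ρ : MonoidAlgebra K G →ₐ[K] Ω) (hρ : ∀ a, ρ a ∈ 𝒜 0) :
    (∀ (H : Subgroup G), (∀ i j g, (u i j).coeff g ≠ 0 → g ∈ H) →
      (∀ i j g, (v i j).coeff g ≠ 0 → g ∈ H) →
      (∀ g : H, ValuesIn δ T ρ (2 * n + 1) g ⊥ ∨
        (NotDivisible g ∧ ∃ (s : Finset K) (F : Finset M), ValuesIn δ T ρ (2 * n + 1) g
          (Submodule.span (Algebra.adjoin ℤ (s : Set K)) (F : Set M)).toAddSubgroup) ∨
        (FiniteQuotients g ∧ ∃ F : Finset M,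
          ValuesIn δ T ρ (2 * n + 1) g (AddSubgroup.closure (F : Set M)))) →
      onMat δ T ρ n u v = 0) ∧
    (∀ (Γ : Type u2) [Group Γ] (f : G →* Γ), Sep Γ →
      (∀ (a : G) (l : List G), l.length = 2 * n + 1 → IsOfFinOrder (f (a * l.prod)) →
        value δ T ρ a l = 0) →
      ∀ F : Finset M, (∀ (a : G) (l : List G), l.length = 2 * n + 1 →
        value δ T ρ a l ∈ AddSubgroup.closure (F : Set M)) →
      onMat δ T ρ n u v = 0) := by
  classical
  have hcyc : Pool.Agent.H23R2.Ch.IsCycle (2 * n + 1) 𝒜 δ T :=
    ⟨hT.deg, hT.sq, hT.leibniz, hT.closed, hT.trace, hT.dim⟩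
  have hmap : ∀ (H : Subgroup G) (a : H) (l : List H),
      value δ T ρ a (l.map Subtype.val) = T (ρ (MonoidAlgebra.single (a : G) 1) *
        (l.map fun b : H => δ (ρ (MonoidAlgebra.single (b : G) 1))).prod) := by
    intro H a l
    unfold value
    rw [List.map_map]
    rfl
  have part1 : ∀ (H : Subgroup G), (∀ i j g, (u i j).coeff g ≠ 0 → g ∈ H) →
      (∀ i j g, (v i j).coeff g ≠ 0 → g ∈ H) →
      (∀ g : H, ValuesIn δ T ρ (2 * n + 1) g ⊥ ∨
        (NotDivisible g ∧ ∃ (s : Finset K) (F : Finset M), ValuesIn δ T ρ (2 * n + 1) g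
          (Submodule.span (Algebra.adjoin ℤ (s : Set K)) (F : Set M)).toAddSubgroup) ∨
        (FiniteQuotients g ∧ ∃ F : Finset M,
          ValuesIn δ T ρ (2 * n + 1) g (AddSubgroup.closure (F : Set M)))) →
      onMat δ T ρ n u v = 0 := by
    intro H hHu hHv hloc
    exact Pool.Agent.Y84.PK.mixed_group u v huv hvu H hHu hHv hcyc hρ
      (fun g V => ValuesIn δ T ρ (2 * n + 1) g V) (fun g V => by
        unfold ValuesIn
        simp only [hmap]) hloc
  refine ⟨part1, fun Γ _ f hG h0 F hF => ?_⟩
  let W : Finset G := Finset.univ.biUnion fun i => Finset.univ.biUnion fun j =>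
    (u i j).coeff.support ∪ (v i j).coeff.support
  have hWu : ∀ i j g, (u i j).coeff g ≠ 0 → g ∈ Subgroup.closure (W : Set G) := by
    intro i j g hg
    apply Subgroup.subset_closure
    have h1 : g ∈ W := by
      simp only [W, Finset.mem_biUnion, Finset.mem_univ, true_and]
      exact ⟨i, j, Finset.mem_union_left _ (Finsupp.mem_support_iff.2 hg)⟩
    exact_mod_cast h1
  have hWv : ∀ i j g, (v i j).coeff g ≠ 0 → g ∈ Subgroup.closure (W : Set G) := by
    intro i j g hg
    apply Subgroup.subset_closure
    have h1 : g ∈ W := by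
      simp only [W, Finset.mem_biUnion, Finset.mem_univ, true_and]
      exact ⟨i, j, Finset.mem_union_right _ (Finsupp.mem_support_iff.2 hg)⟩
    exact_mod_cast h1
  let H : Subgroup G := Subgroup.closure (W : Set G)
  let H1 : Subgroup Γ := H.map f
  have hH1 : H1.FG := by
    refine ⟨W.image f, ?_⟩
    change Subgroup.closure ((W.image f : Finset Γ) : Set Γ) = Subgroup.map f (Subgroup.closure _)
    rw [MonoidHom.map_closure, Finset.coe_image]
  let f1 : H →* H1 := f.subgroupMap H
  have hf1 : ∀ x : H, ((f1 x : H1) : Γ) = f x := fun x => rfl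
  refine part1 H hWu hWv (fun g => ?_)
  by_cases hfin : IsOfFinOrder (f1 g)
  · refine Or.inl fun a l hl hal => ?_
    rw [AddSubgroup.mem_bot]
    refine h0 a (l.map Subtype.val) (by simpa using hl) ?_
    have h1 : IsOfFinOrder (f1 (a * l.prod)) := by
      rw [isOfFinOrder_iff_pow_eq_one] at hfin ⊢
      obtain ⟨m, hm, hgm⟩ := hfin
      refine ⟨m, hm, ?_⟩
      have h2 : IsConj ((f1 g) ^ m) ((f1 (a * l.prod)) ^ m) := (f1.map_isConj hal).pow m
      rw [hgm] at h2
      exact isConj_one_right.1 h2
    have h2 := H1.subtype.isOfFinOrder h1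
    rw [Subgroup.subtype_apply, hf1, Subgroup.coe_mul, Subgroup.val_list_prod] at h2
    exact h2
  · have hval : ∀ V : AddSubgroup M, AddSubgroup.closure (F : Set M) ≤ V →
        ValuesIn δ T ρ (2 * n + 1) g V := by
      intro V hV a l hl _
      exact hV (hF _ _ (by simpa using hl))
    rcases hG H1 hH1 (f1 g) hfin with h1 | h1 | h1
    · refine Or.inr (Or.inl ⟨h1.mono ?_, ∅, F, hval _ ?_⟩)
      · rintro p ⟨hp, hpj⟩
        refine ⟨hp, fun j hj hc => hpj j hj ?_⟩
        have h2 := f1.map_isConj hc
        rwa [map_pow] at h2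
      · exact (AddSubgroup.closure_le _).2 Submodule.subset_span
    · exact Or.inr (Or.inr ⟨Pool.Agent.Y84.PK.cen_hom f1 g h1, F, hval _ le_rfl⟩)
    · refine Or.inr (Or.inr ⟨Pool.Agent.Y84.PK.cen_hom f1 g (fun m hm => ?_), F, hval _ le_rfl⟩)
      obtain ⟨N, h2, h3, h4⟩ := h1
        ((⟨f1 g, Subgroup.mem_centralizer_singleton_iff.2 rfl⟩ :
          Subgroup.centralizer ({f1 g} : Set H1)) ^ m) (fun h5 => by
            apply hfin
            rw [isOfFinOrder_iff_pow_eq_one]
            exact ⟨m, Nat.pos_of_ne_zero hm, congrArg Subtype.val h5⟩)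
      refine ⟨Subgroup.centralizer ({f1 g} : Set H1) ⧸ N, inferInstance,
        Subgroup.finite_quotient_of_finiteIndex, QuotientGroup.mk' N, ?_⟩
      intro h5
      apply h4
      rw [← QuotientGroup.eq_one_iff]
      exact h5

end Pool.Agent.Results.MP_63c928_gt.OddCyclesFiniteQuotients
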